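import Pool.Agent.W533.PP.Stm

set_option autoImplicit false

namespace Pool.Agent.W298.PP

open Finset
open scoped Classical
open Pool.Agent.W533.PP

theorem isum (h1 : ILAB) (h2 : RANK) : ISUM := by
  intro n e he m
  have hact : ActI e (n + 1) := by
    refine ⟨le_rfl, ?_⟩
    rintro i j _ ⟨_, h4⟩
    have h5 := he.1 i
    have h6 := i.2
    omega
  have hbM := (h1 n e he (n + 1) hact).1
  set M := Mx e with hM
  set a := aL e with ha
  set b := bL e with hb
  have hA : a = ((Finset.range (M + 1)).filter (fun s => ActI e s)).card := by rw [ha]; rfl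
  have hB : b = ((Finset.Ico (M + 1) (n + 2)).filter (fun s => ActI e s)).card := by rw [hb]; rfl
  have hfull : (Finset.Ico (M + 1) (n + 2)).filter (fun s => ActI e s) = Finset.Ico (M + 1) (n + 2) := by
    apply Finset.eq_of_subset_of_card_le (Finset.filter_subset _ _)
    rw [← hB, Nat.card_Ico]
    omega
  set A := (Finset.range (M + 1)).filter (fun s => ActI e s) with hAdef
  have hsplit : aI e = A ∪ (Finset.Ico (M + 1) (n + 2)).filter (fun s => ActI e s) := by
    ext s
    simp only [aI, hAdef, Finset.mem_filter, Finset.mem_union, Finset.mem_range, Finset.mem_Ico]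
    constructor
    · rintro ⟨h3, h4⟩
      rcases Nat.lt_or_ge s (M + 1) with h | h
      · exact Or.inl ⟨h, h4⟩
      · exact Or.inr ⟨⟨h, h3⟩, h4⟩
    · rintro (⟨h3, h4⟩ | ⟨⟨h3, h5⟩, h4⟩)
      · exact ⟨by omega, h4⟩
      · exact ⟨h5, h4⟩
  have hdisj : Disjoint A ((Finset.Ico (M + 1) (n + 2)).filter (fun s => ActI e s)) := by
    rw [Finset.disjoint_left]
    intro s h3 h4
    simp only [hAdef, Finset.mem_filter, Finset.mem_range, Finset.mem_Ico] at h3 h4
    omega
  rw [hsplit, Finset.sum_union hdisj]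
  -- low part
  have hlow : ∑ x ∈ A, T m (bL (app e x)) (aL (app e x)) = ∑ i ∈ Finset.range a, T m (b + 1) (i + 1) := by
    rw [hA, ← h2 A (fun c => T m (b + 1) c)]
    apply Finset.sum_congr rfl
    intro x hx
    simp only [hAdef, Finset.mem_filter, Finset.mem_range] at hx
    have h3 := (h1 n e he x hx.2).2.1 (by omega)
    rw [h3.1, h3.2]
    congr 1
    congr 1
    ext s
    rw [hsplit]
    simp only [hAdef, Finset.mem_filter, Finset.mem_union, Finset.mem_range, Finset.mem_Ico]
    constructor
    · rintro ⟨(⟨h4, h5⟩ | ⟨⟨h4, h6⟩, h5⟩), h7⟩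
      · exact ⟨⟨h4, h5⟩, h7⟩
      · omega
    · rintro ⟨⟨h4, h5⟩, h7⟩
      exact ⟨Or.inl ⟨h4, h5⟩, h7⟩
  -- high part
  have hhigh : ∑ x ∈ (Finset.Ico (M + 1) (n + 2)).filter (fun s => ActI e s), T m (bL (app e x)) (aL (app e x))
      = ∑ j ∈ Finset.range b, T m (j + 1) (b + a - j) := by
    have e1 : ∑ x ∈ (Finset.Ico (M + 1) (n + 2)).filter (fun s => ActI e s), T m (bL (app e x)) (aL (app e x))
        = ∑ x ∈ (Finset.Ico (M + 1) (n + 2)).filter (fun s => ActI e s), T m (n + 2 - x) (a + (x - M)) := by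
      apply Finset.sum_congr rfl
      intro x hx
      simp only [Finset.mem_filter, Finset.mem_Ico] at hx
      have h3 := (h1 n e he x hx.2).2.2 (by omega)
      rw [h3.1, h3.2]
    rw [e1, hfull]
    apply Finset.sum_nbij' (fun x => n + 1 - x) (fun j => n + 1 - j)
    · intro x hx
      rw [Finset.mem_Ico] at hx
      rw [Finset.mem_range]
      omega
    · intro j hj
      rw [Finset.mem_range] at hj
      rw [Finset.mem_Ico]
      omega
    · intro x hx
      rw [Finset.mem_Ico] at hx
      omega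
    · intro j hj
      rw [Finset.mem_range] at hj
      omega
    · intro x hx
      rw [Finset.mem_Ico] at hx
      congr 1 <;> omega
  rw [hlow, hhigh, T_succ, Nat.add_comm]

end Pool.Agent.W298.PP
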